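import Mathlib
import Pool.Agent.W667.DT.Main

set_option autoImplicit false

/-!
# The algebras `C(Ω)` of homological dimension at most three

For every compact Hausdorff space `Ω` the global dimension and the bidimension of `C(Ω)` agree. They
are at most two if and only if they are at most three, and this happens exactly for the spaces of
finite Cantor-Bendixson height in which the complement of every point is a disjoint union of clopen
sets. They are infinite as soon as no iterated derived set of `Ω` is empty. In particular they are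
never equal to three.
-/

namespace Pool.Agent.Results.MP_75da70_an.DimensionAtMostTwo

open Pool.Agent.Helper832 Pool.Agent.Helper832.GD Pool.Agent.W667.DT

/-- the iterated derived sets: `deriv Ω 0 = Ω`, and `deriv Ω (r + 1)` is the set of the accumulation
points of `deriv Ω r` -/
def deriv (Ω : Type) [TopologicalSpace Ω] : ℕ → Set Ω
  | 0 => Set.univ
  | r + 1 => derivedSet (deriv Ω r)

/-- `O` is a disjoint union of clopen sets -/
def DisjointUnionOfClopens {Ω : Type} [TopologicalSpace Ω] (O : Set Ω) : Prop :=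
  ∃ 𝒟 : Set (Set Ω), (∀ C ∈ 𝒟, IsClopen C) ∧ 𝒟.PairwiseDisjoint id ∧ ⋃₀ 𝒟 = O

/-- `Ω` has finite Cantor-Bendixson height, and the complements of points are disjoint unions of
clopen sets -/
def Small (Ω : Type) [TopologicalSpace Ω] : Prop :=
  (∃ r, deriv Ω r = ∅) ∧ ∀ p : Ω, DisjointUnionOfClopens ({p}ᶜ : Set Ω)

theorem deriv_eq (Ω : Type) [TopologicalSpace Ω] (r : ℕ) : deriv Ω r = Dr Ω r := by
  induction r with
  | zero => rfl
  | succ r ih => rw [deriv, Dr, ih]

theorem small_iff (Ω : Type) [TopologicalSpace Ω] :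
    Small Ω ↔ (∃ r, Dr Ω r = ∅) ∧ ∀ p : Ω, DU ({p}ᶜ : Set Ω) := by
  unfold Small
  simp only [deriv_eq]
  rfl

theorem key (Ω : Type) [TopologicalSpace Ω] [CompactSpace Ω] [T2Space Ω] (n : ℕ) :
    GS.db C(Ω, ℂ) ≤ n ↔ (plusBim C(Ω, ℂ)).HasResolution n := by
  constructor
  · intro h
    by_contra hn
    have h1 : ¬ (GS.plusBMod C(Ω, ℂ)).HasResolution n := by
      rw [← GS.BMod.ofC_plusBim]
      intro h2
      exact hn (GS.BMod.of_ofC_hasResolution h2)
    have h2 := GS.BMod.le_dh h1
    have h3 : ((n + 1 : ℕ) : ℕ∞) ≤ n := h2.trans h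
    rw [Nat.cast_le] at h3
    omega
  · intro h
    have h2 : (GS.plusBMod C(Ω, ℂ)).HasResolution n := by
      rw [← GS.BMod.ofC_plusBim]
      exact GS.BMod.ofC_hasResolution h
    exact GS.BMod.dh_le h2

/-- Let `Ω` be a compact Hausdorff space. The global dimension and the bidimension of `C(Ω)` are
equal. They are at most `2` if and only if they are at most `3`, if and only if `Ω` has finite
Cantor-Bendixson height and the complement of every point of `Ω` is a disjoint union of clopen sets.
If no iterated derived set of `Ω` is empty, they are infinite. They are not equal to `3`. -/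
theorem result (Ω : Type) [TopologicalSpace Ω] [CompactSpace Ω] [T2Space Ω] :
    GS.dg C(Ω, ℂ) = GS.db C(Ω, ℂ) ∧
    (GS.dg C(Ω, ℂ) ≤ 2 ↔ Small Ω) ∧
    (GS.dg C(Ω, ℂ) ≤ 3 ↔ Small Ω) ∧
    ((∀ r, (deriv Ω r).Nonempty) → GS.dg C(Ω, ℂ) = ⊤) ∧
    GS.dg C(Ω, ℂ) ≠ 3 ∧ GS.db C(Ω, ℂ) ≠ 3 := by
  have h1 := Pool.Agent.W667.DT.dg_eq Ω
  obtain ⟨h2, h3⟩ := Pool.Agent.W667.DT.db_main Ω
  obtain ⟨h4, -⟩ := Pool.Agent.W667.DT.res_iff Ω
  have h5 := key Ω 3
  refine ⟨h1, ?_, ?_, ?_, ?_, h2⟩
  · rw [h1, small_iff]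
    exact h3
  · rw [h1, small_iff]
    exact h5.trans h4
  · intro h
    rw [h1]
    by_contra hne
    obtain ⟨n, hn⟩ := ENat.ne_top_iff_exists.1 hne
    have h6 := (key Ω n).1 hn.symm.le
    obtain ⟨r, hr⟩ := Pool.Agent.W667.DT.height_of_res Ω n h6
    have h7 := h r
    rw [deriv_eq, hr] at h7
    exact Set.not_nonempty_empty h7
  · rw [h1]
    exact h2

end Pool.Agent.Results.MP_75da70_an.DimensionAtMostTwo
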